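import Mathlib

/-!
# MP_634266_nt: the density of the odd numbers that are not a squarefree number plus a power of 2

Definitions and targets of the board `sq_modules`.
-/

set_option autoImplicit false

namespace Pool.Agent.H99.SQ

open Finset Filter Topology

/-- the order of `2` modulo `p ^ 2` -/
noncomputable def mm (p : ℕ) : ℕ := orderOf (2 : ZMod (p ^ 2))

/-- `p` is an odd prime -/
def OP (p : ℕ) : Prop := p.Prime ∧ p ≠ 2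

/-- `p ^ 2` divides `n - 2 ^ l` -/
def Kill (p n l : ℕ) : Prop := (n : ZMod (p ^ 2)) = 2 ^ l

/-- `1` if `n` is congruent to a power of `2` modulo `p ^ 2`, and `0` otherwise -/
noncomputable def ci (p n : ℕ) : ℝ := by
  classical exact if ∃ l, Kill p n l then 1 else 0

/-- upper bound for the proportion of the `l` killed by `F` -/
noncomputable def SS (F : Finset ℕ) (n : ℕ) : ℝ := ∑ p ∈ F, ci p n / mm p

/-- the modulus of `F` -/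
def QQ (F : Finset ℕ) : ℕ := ∏ p ∈ F, p ^ 2

/-- the exponents `l` with `n - 2 ^ l` positive and squarefree -/
def RR (n : ℕ) : Set ℕ := {l | 2 ^ l < n ∧ Squarefree (n - 2 ^ l)}

/-- the number of representations -/
noncomputable def rep (n : ℕ) : ℕ := (RR n).ncard

/-- the exceptional numbers -/
def EE (n : ℕ) : Prop := Odd n ∧ 1 < n ∧ rep n = 0

/-- all `l` are killed by the finite set `F` -/
def Cov (F : Finset ℕ) (n : ℕ) : Prop := ∀ l, ∃ p ∈ F, Kill p n l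

/-- the odd primes `≤ Y` -/
def FF (Y : ℕ) : Finset ℕ := (range (Y + 1)).filter fun p => p.Prime ∧ p ≠ 2

/-- (ORD) -/
def T_ORD : Prop := ∀ p : ℕ, OP p →
  0 < mm p ∧ p ^ 2 < 2 ^ mm p ∧ mm p ∣ p * (p - 1) ∧
  (∀ a b : ℕ, (2 : ZMod (p ^ 2)) ^ a = 2 ^ b ↔ a ≡ b [MOD mm p]) ∧
  orderOf (2 : ZMod p) ∣ mm p ∧
  (¬ p ^ 2 ∣ 2 ^ (p - 1) - 1 → p * orderOf (2 : ZMod p) ∣ mm p)

/-- (SEM) `Kill` and divisibility -/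
def T_SEM : Prop :=
  (∀ p n l : ℕ, 2 ^ l ≤ n → (Kill p n l ↔ p ^ 2 ∣ n - 2 ^ l)) ∧
  (∀ p n n' l : ℕ, n ≡ n' [MOD p ^ 2] → (Kill p n l ↔ Kill p n' l)) ∧
  (∀ n l : ℕ, Odd n → 1 ≤ l → 2 ^ l < n → l ∉ RR n → ∃ p, OP p ∧ p ^ 2 ≤ n ∧ Kill p n l) ∧
  (∀ n l p : ℕ, OP p → Kill p n l → l ∉ RR n)

/-- (KA) -/
def T_KA : Prop := ∀ p : ℕ, p.Prime → 500 < p → p ≤ 1000000 → p ≠ 1093 → p ≠ 3511 →
  ¬ p ^ 2 ∣ 2 ^ (p - 1) - 1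

/-- (SM) small primes -/
def T_SM : Prop := ∀ F : Finset ℕ, (∀ p ∈ F, OP p ∧ (p ≤ 500 ∨ p = 1093 ∨ p = 3511)) →
  ∑ p ∈ F, (1 : ℝ) / mm p ≤ 32 / 100

/-- (CRT) sums of products over residue classes -/
def T_CRT : Prop := ∀ (Q q : ℕ) (f g : ℕ → ℝ), 0 < Q → 0 < q → Nat.Coprime Q q →
  (∀ n, f (n + Q) = f n) → (∀ n, g (n + q) = g n) →
  ∑ a ∈ range (Q * q), f a * g a = (∑ a ∈ range Q, f a) * ∑ a ∈ range q, g a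

/-- (ACT) the number of classes of powers of `2` -/
def T_ACT : Prop := ∀ p : ℕ, OP p → (∀ n, ci p (n + p ^ 2) = ci p n) ∧
  ∑ a ∈ range (p ^ 2), ci p a ≤ mm p

/-- (MOM) the moment bound -/
def T_MOM : Prop := ∀ (F : Finset ℕ) (g : ℕ → ℝ), (∀ p ∈ F, OP p ∧ 0 ≤ g p) →
  (∀ n, ∏ p ∈ F, (1 + g p * ci p (n + QQ F)) = ∏ p ∈ F, (1 + g p * ci p n)) ∧
  ∑ a ∈ range (QQ F), ∏ p ∈ F, (1 + g p * ci p a) ≤ ∏ p ∈ F, ((p : ℝ) ^ 2 + mm p * g p)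

/-- (SQS) sum of the squares of the reciprocals of odd numbers -/
def T_SQS : Prop := ∀ (F : Finset ℕ) (J : ℕ), 1 ≤ J → (∀ p ∈ F, Odd p ∧ 2 * J < p) →
  ∑ p ∈ F, (1 : ℝ) / (p : ℝ) ^ 2 ≤ 1 / (4 * J)

/-- (NUM) numerical bound -/
def T_NUM : Prop := ∀ F : Finset ℕ, (∀ p ∈ F, OP p ∧ 500 < p ∧ p ≠ 1093 ∧ p ≠ 3511) →
  ∏ p ∈ F, ((p : ℝ) ^ 2 + mm p * (Real.exp (460 / mm p) - 1)) ≤
    Real.exp 25 * ∏ p ∈ F, (p : ℝ) ^ 2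

/-- (PRB) few residue classes have a large value of `SS` -/
def T_PRB : Prop := ∀ (F : Finset ℕ) (A : Finset ℕ), (∀ p ∈ F, OP p) →
  (∀ a ∈ A, a < QQ F ∧ 92 / 100 ≤ SS F a) → (A.card : ℝ) ≤ QQ F / 10 ^ 105

/-- (PC) counting numbers in residue classes -/
def T_PC : Prop := ∀ (Q x : ℕ) (R A : Finset ℕ), 0 < Q → (∀ n ∈ A, n ≤ x ∧ n % Q ∈ R) →
  (A.card : ℝ) ≤ (x / Q + 1) * R.card

/-- (KC) number of the `l < L` killed by `p`, and by all `p` in `F` -/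
def T_KC : Prop := ∀ (F : Finset ℕ) (n L : ℕ) (A : Finset ℕ), (∀ p ∈ F, OP p) →
  (∀ l ∈ A, l < L ∧ ∃ p ∈ F, Kill p n l) → (A.card : ℝ) ≤ L * SS F n + F.card

/-- (TL) the large primes -/
def T_TL : Prop := ∀ (Y x : ℕ) (A : Finset (ℕ × ℕ)), 1 ≤ Y → 1 ≤ x →
  (∀ q ∈ A, q.1 ≤ x ∧ 2 ^ q.2 < q.1 ∧ ∃ p, Y < p ∧ p ^ 2 ∣ q.1 - 2 ^ q.2) →
  (A.card : ℝ) ≤ (Nat.log 2 x + 1) * (x / Y)

/-- (GA) a good `n` has many representations -/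
def T_GA : Prop := ∀ (Y n x : ℕ) (T : Finset ℕ), Odd n → 1 < n → n ≤ x → x < 2 ^ 340 * n →
  (∀ l, l ∈ T ↔ 2 ^ l < n ∧ ∃ p, p.Prime ∧ Y < p ∧ p ^ 2 ∣ n - 2 ^ l) →
  SS (FF Y) n ≤ 92 / 100 → 200 * T.card ≤ Nat.log 2 x + 1 →
  (108 / 1000 : ℝ) * Real.log n - (FF Y).card - 4 ≤ rep n

/-- (TA) first part of the theorem -/
def T_TA : Prop := ∃ x₀ : ℕ, ∀ x : ℕ, x₀ ≤ x → ∀ A : Finset ℕ,
  (∀ n ∈ A, n ≤ x ∧ Odd n ∧ 10 * (rep n : ℝ) < Real.log n) → (A.card : ℝ) ≤ x / 10 ^ 100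

/-- (PP) number of the `n ≤ x` in two residue classes -/
def T_PP : Prop := ∀ (x Q q a b : ℕ) (A : Finset ℕ), 0 < Q → 0 < q → Nat.Coprime Q q →
  (∀ n ∈ A, n ≤ x ∧ n ≡ a [MOD Q] ∧ n ≡ b [MOD q]) → (A.card : ℝ) ≤ x / (Q * q) + 1

/-- (BB) exceptional numbers which are not covered by the small primes -/
def T_BB : Prop := ∀ (Y x : ℕ) (A : Finset ℕ), 1 ≤ Y →
  (∀ n ∈ A, n ≤ x ∧ EE n ∧ ¬ Cov (FF Y) n) →
  (A.card : ℝ) ≤ x / Y + QQ (FF Y) * Real.sqrt x + 2 ^ (2 * QQ (FF Y)) + 1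

/-- (QB) size of the modulus -/
def T_QB : Prop := ∀ Y : ℕ, QQ (FF Y) ≤ 16 ^ Y

/-- (TC) second part of the theorem -/
def T_TC : Prop := ∃ C : ℝ, ∀ x : ℕ, 3 ≤ x → ∀ A : Finset ℕ,
  (∀ n ∈ A, n ≤ x ∧ EE n ∧ ∀ F : Finset ℕ, (∀ p ∈ F, OP p) → ¬ Cov F n) →
  (A.card : ℝ) ≤ C * x / Real.log (Real.log x)

/-- (PD) density of a periodic set -/
def T_PD : Prop := ∀ (Q : ℕ) (P : ℕ → Prop), 0 < Q → (∀ n, P (n + Q) ↔ P n) →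
  ∃ d : ℝ, ∀ x : ℕ, |({n : ℕ | n ≤ x ∧ P n}.ncard : ℝ) - d * x| ≤ Q + 1

/-- (TD) third part of the theorem: the density exists -/
def T_TD : Prop := ∃ δ : ℝ,
  Tendsto (fun x : ℕ => ({n : ℕ | n ≤ x ∧ EE n}.ncard : ℝ) / x) atTop (𝓝 δ)

end Pool.Agent.H99.SQ
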