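import Pool.Agent.H99.SQ.Fin0
import Pool.Agent.H14.SQ.ORD
import Pool.Agent.H14.SQ.SEM
import Pool.Agent.H48.SQ.PP
import Pool.Agent.H58.SQ.BB
import Pool.Agent.H58.SQ.TC
import Pool.Agent.H58.SQ.TD
import Pool.Agent.H69.SQ.QB
import Pool.Agent.H17.SQ.PD

/-! Assembly of the theorem on the density of the exceptions. -/

set_option autoImplicit false

namespace Pool.Agent.H99.SQ

open Filter Topology

theorem t_BB : T_BB :=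
  Pool.Agent.H58.SQ.BB.pf_BB Pool.Agent.H14.SQ.pf_ORD Pool.Agent.H14.SQ.pf_SEM
    Pool.Agent.H48.SQ.pf_PP

theorem t_TC : T_TC := Pool.Agent.H58.SQ.TC.pf_TC t_BB Pool.Agent.H69.SQ.QB.pf_QB

theorem t_TD : T_TD :=
  Pool.Agent.H58.SQ.TD.pf_TD Pool.Agent.H14.SQ.pf_ORD Pool.Agent.H14.SQ.pf_SEM t_BB
    Pool.Agent.H17.SQ.PD.pf_PD

theorem asm_B :
    (∃ C : ℝ, ∀ x : ℕ, 3 ≤ x →
      ({n : ℕ | n ≤ x ∧ Exceptional n ∧ ¬ Covered n}.ncard : ℝ) ≤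
        C * x / Real.log (Real.log x)) ∧
    (∀ n : ℕ, Odd n → Covered n → ∃ m : ℕ, 0 < m ∧
      ∀ n' : ℕ, n' ≡ n [MOD m] → 1 < n' → Exceptional n' ∧ Covered n') ∧
    ∃ δ : ℝ,
      Tendsto (fun x : ℕ => ({n : ℕ | n ≤ x ∧ Exceptional n}.ncard : ℝ) / x) atTop (𝓝 δ) ∧
      (δ = 0 ↔ ∀ n : ℕ, Odd n → ¬ Covered n) :=
  final_B Pool.Agent.H14.SQ.pf_SEM t_TC t_TD

end Pool.Agent.H99.SQ
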