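import Pool.Agent.H99.SQ.K0

/-! Kernel check, part 3. -/

set_option autoImplicit false

namespace Pool.Agent.H99.SQ.K

theorem check3 : loop2 111 (6 * 111586 + 1) = true := by decide +kernel

end Pool.Agent.H99.SQ.K
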