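import Pool.Agent.H99.SQ.K1
import Pool.Agent.H99.SQ.K2
import Pool.Agent.H99.SQ.K3

/-! Wieferich primes below `10 ^ 6` (module KA). -/

set_option autoImplicit false

namespace Pool.Agent.H99.SQ.K

theorem small1 : loop 99 499 = true := by decide +kernel

theorem small2 : good 1097 = true := by decide +kernel

theorem small3 : loop 402 1099 = true := by decide +kernel

theorem loop_range (m k : ℕ) (hm : m % 6 = 1) (h : loop k m = true) (p : ℕ) (hp : p.Prime)
    (h47 : 47 < p) (hM : p ≤ 1000000) (h1 : m ≤ p) (h2 : p < m + 6 * k) :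
    ¬ p ^ 2 ∣ 2 ^ (p - 1) - 1 := by
  refine good_sound p hp h47 hM ?_
  have h3 : ¬ 2 ∣ p := fun hd => by
    have := (Nat.prime_dvd_prime_iff_eq Nat.prime_two hp).1 hd
    omega
  have h4 : ¬ 3 ∣ p := fun hd => by
    have := (Nat.prime_dvd_prime_iff_eq Nat.prime_three hp).1 hd
    omega
  have h5 : p % 6 = 1 ∨ p % 6 = 5 := by omega
  rcases h5 with h5 | h5
  · obtain ⟨i, hi⟩ : ∃ i, p = m + 6 * i := ⟨(p - m) / 6, by omega⟩
    rw [hi]
    exact (loop_sound k _ h i (by omega)).1
  · obtain ⟨i, hi⟩ : ∃ i, p = m + 6 * i + 4 := ⟨(p - (m + 4)) / 6, by omega⟩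
    rw [hi]
    exact (loop_sound k _ h i (by omega)).2

theorem pf_KA : T_KA := by
  intro p hp h500 hM h1 h2
  rcases Nat.lt_or_ge p 1093 with c1 | c1
  · exact loop_range 499 99 (by norm_num) small1 p hp (by omega) hM (by omega) (by omega)
  rcases Nat.lt_or_ge p 1099 with c2 | c2
  · have h3 : p = 1097 := by
      have h4 : p = 1094 ∨ p = 1095 ∨ p = 1096 ∨ p = 1097 ∨ p = 1098 := by omega
      rcases h4 with h | h | h | h | h
      · exact absurd (h ▸ hp) (by norm_num)
      · exact absurd (h ▸ hp) (by norm_num)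
      · exact absurd (h ▸ hp) (by norm_num)
      · exact h
      · exact absurd (h ▸ hp) (by norm_num)
    exact good_sound p hp (by omega) hM (by rw [h3]; exact small2)
  rcases Nat.lt_or_ge p 3511 with c3 | c3
  · exact loop_range 1099 402 (by norm_num) small3 p hp (by omega) hM (by omega) (by omega)
  rcases Nat.lt_or_ge p 3517 with c4 | c4
  · have h4 : p = 3512 ∨ p = 3513 ∨ p = 3514 ∨ p = 3515 ∨ p = 3516 := by omega
    rcases h4 with h | h | h | h | h
    · exact absurd (h ▸ hp) (by norm_num)
    · exact absurd (h ▸ hp) (by norm_num)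
    · exact absurd (h ▸ hp) (by norm_num)
    · exact absurd (h ▸ hp) (by norm_num)
    · exact absurd (h ▸ hp) (by norm_num)
  rcases Nat.lt_or_ge p 336517 with c5 | c5
  · exact range_sound 586 111 check1 p hp (by omega) hM (by omega) (by omega)
  rcases Nat.lt_or_ge p 669517 with c6 | c6
  · exact range_sound 56086 111 check2 p hp (by omega) hM (by omega) (by omega)
  · exact range_sound 111586 111 check3 p hp (by omega) hM (by omega) (by omega)

end Pool.Agent.H99.SQ.K
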