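import Pool.Agent.H99.SQ.Fin0
import Pool.Agent.H99.SQ.KA
import Pool.Agent.H14.SQ.ORD
import Pool.Agent.H14.SQ.SEM
import Pool.Agent.H17.SQ.SM
import Pool.Agent.H65.SQ.MOM
import Pool.Agent.H65.SQ.PRB
import Pool.Agent.H91.SQ.ACT
import Pool.Agent.H91.SQ.TA
import Pool.Agent.H69.SQ.SQS
import Pool.Agent.H59.SQ.KC
import Pool.Agent.H59.SQ.NUM
import Pool.Agent.H12.SQ.PC
import Pool.Agent.H35.SQ.TL
import Pool.Agent.H49.SQ.GA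

/-! Assembly of the theorem on most odd numbers. -/

set_option autoImplicit false

namespace Pool.Agent.H99.SQ

theorem t_NUM : T_NUM :=
  Pool.Agent.H59.SQ.pf_NUM Pool.Agent.H14.SQ.pf_ORD K.pf_KA Pool.Agent.H69.SQ.SQS.pf_SQS

theorem t_MOM : T_MOM :=
  Pool.Agent.H65.SQ.pf_MOM Pool.Agent.H65.SQ.pf_CRT
    (Pool.Agent.H91.SQ.pf_ACT Pool.Agent.H14.SQ.pf_ORD)

theorem t_PRB : T_PRB :=
  Pool.Agent.H65.SQ.pf_PRB (Pool.Agent.H17.SQ.SM.pf_SM Pool.Agent.H14.SQ.pf_ORD) t_MOM t_NUM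
    Pool.Agent.H14.SQ.pf_ORD

theorem t_GA : T_GA :=
  Pool.Agent.H49.SQ.pf_GA Pool.Agent.H14.SQ.pf_SEM
    (Pool.Agent.H59.SQ.pf_KC Pool.Agent.H14.SQ.pf_ORD)

theorem t_TA : T_TA :=
  Pool.Agent.H91.SQ.pf_TA t_PRB Pool.Agent.H12.SQ.pf_PC Pool.Agent.H35.SQ.TL.pf_TL t_GA
    Pool.Agent.H14.SQ.pf_SEM

theorem asm_A : ∃ x₀ : ℕ, ∀ x : ℕ, x₀ ≤ x →
    ({n : ℕ | n ≤ x ∧ Odd n ∧ (reps n : ℝ) < Real.log n / 10}.ncard : ℝ) ≤ x / 10 ^ 100 :=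
  final_A t_TA

end Pool.Agent.H99.SQ
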