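import Pool.Agent.H99.SQ.Defs

/-! Last steps of the theorem. -/

set_option autoImplicit false

namespace Pool.Agent.H99.SQ

open Finset Filter Topology

/-- the number of representations `n = k + 2 ^ l` with `k` squarefree -/
noncomputable def reps (n : ℕ) : ℕ := {q : ℕ × ℕ | Squarefree q.1 ∧ n = q.1 + 2 ^ q.2}.ncard

/-- an odd number `n > 1` without a representation -/
def Exceptional (n : ℕ) : Prop := Odd n ∧ 1 < n ∧ ¬ ∃ k l : ℕ, Squarefree k ∧ n = k + 2 ^ l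

/-- the squares of the primes of a finite set of odd primes cover all numbers `n - 2 ^ l` -/
def Covered (n : ℕ) : Prop := ∃ F : Finset ℕ, (∀ p ∈ F, p.Prime ∧ p ≠ 2) ∧
  ∀ l : ℕ, ∃ p ∈ F, (p : ℤ) ^ 2 ∣ (n : ℤ) - 2 ^ l

theorem RR_finite (n : ℕ) : (RR n).Finite :=
  (Set.finite_Iio n).subset fun _ hl => lt_trans Nat.lt_two_pow_self hl.1

theorem reps_eq (n : ℕ) : reps n = rep n := by
  unfold reps rep
  have h : {q : ℕ × ℕ | Squarefree q.1 ∧ n = q.1 + 2 ^ q.2} =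
      (fun l : ℕ => (n - 2 ^ l, l)) '' RR n := by
    ext ⟨k, l⟩
    simp only [Set.mem_ofPred_eq, Set.mem_image, Prod.mk.injEq]
    constructor
    · rintro ⟨hk, hn⟩
      have hk0 : k ≠ 0 := fun h => by
        rw [h] at hk
        exact not_squarefree_zero hk
      refine ⟨l, ⟨by omega, ?_⟩, by omega, rfl⟩
      have : n - 2 ^ l = k := by omega
      rwa [this]
    · rintro ⟨l', ⟨h1, h2⟩, h3, h4⟩
      subst h4
      subst h3
      exact ⟨h2, by omega⟩
  rw [h, Set.ncard_image_of_injective _ fun a b hab => (Prod.mk.injEq _ _ _ _ ▸ hab).2]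

theorem exc_iff (n : ℕ) : Exceptional n ↔ EE n := by
  unfold Exceptional EE
  refine and_congr_right fun _ => and_congr_right fun _ => ?_
  unfold rep
  rw [Set.ncard_eq_zero (RR_finite n), Set.eq_empty_iff_forall_notMem]
  constructor
  · intro h l hl
    exact h ⟨n - 2 ^ l, l, hl.2, by have := hl.1; omega⟩
  · rintro h ⟨k, l, hk, hn⟩
    have hk0 : k ≠ 0 := fun h => by
      rw [h] at hk
      exact not_squarefree_zero hk
    refine h l ⟨by omega, ?_⟩
    have : n - 2 ^ l = k := by omega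
    rwa [this]

theorem kill_iff (p n l : ℕ) : Kill p n l ↔ (p : ℤ) ^ 2 ∣ (n : ℤ) - 2 ^ l := by
  unfold Kill
  have h := ZMod.intCast_eq_intCast_iff_dvd_sub (2 ^ l) (n : ℤ) (p ^ 2)
  push_cast at h
  rw [eq_comm]
  exact h

theorem cov_iff (n : ℕ) : Covered n ↔ ∃ F : Finset ℕ, (∀ p ∈ F, OP p) ∧ Cov F n := by
  unfold Covered Cov OP
  refine exists_congr fun F => and_congr_right fun _ => forall_congr' fun l => ?_
  refine exists_congr fun p => and_congr_right fun _ => ?_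
  rw [kill_iff]

theorem le_finite (x : ℕ) (P : ℕ → Prop) : {n : ℕ | n ≤ x ∧ P n}.Finite :=
  (Set.finite_Iic x).subset fun _ h => h.1

/-- a covered number gives a whole progression of exceptional numbers -/
theorem progression (h2 : T_SEM) (n : ℕ) (hn : Odd n) (hc : Covered n) :
    ∃ m : ℕ, 0 < m ∧ ∀ n' : ℕ, n' ≡ n [MOD m] → 1 < n' → Exceptional n' ∧ Covered n' := by
  rw [cov_iff] at hc
  obtain ⟨F, hF, hcov⟩ := hc
  have hQ : 0 < QQ F := Finset.prod_pos fun p hp => pow_pos (hF p hp).1.pos 2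
  refine ⟨2 * QQ F, by omega, fun n' h1 h3 => ?_⟩
  have h4 : n' ≡ n [MOD 2] := h1.of_mul_right _
  have h5 : Odd n' := by
    rw [Nat.odd_iff] at hn ⊢
    rw [← hn]
    exact h4
  have h6 : Cov F n' := fun l => by
    obtain ⟨p, hp, hk⟩ := hcov l
    refine ⟨p, hp, (h2.2.1 p n' n l ?_).2 hk⟩
    have h7 : p ^ 2 ∣ QQ F := Finset.dvd_prod_of_mem _ hp
    exact (h1.of_mul_left 2).of_dvd h7
  refine ⟨(exc_iff n').2 ⟨h5, h3, ?_⟩, (cov_iff n').2 ⟨F, hF, h6⟩⟩
  unfold rep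
  rw [Set.ncard_eq_zero (RR_finite n'), Set.eq_empty_iff_forall_notMem]
  intro l hl
  obtain ⟨p, hp, hk⟩ := h6 l
  exact h2.2.2.2 n' l p (hF p hp) hk hl

/-- elements of a residue class -/
theorem class_count (m n x : ℕ) (hm : 0 < m) (hn : n < m) :
    (x : ℝ) / m - 3 ≤ ({n' : ℕ | n' ≤ x ∧ n' ≡ n [MOD m] ∧ 1 < n'}.ncard : ℝ) := by
  have h1 : (Finset.Ico 2 (x / m)).card ≤
      {n' : ℕ | n' ≤ x ∧ n' ≡ n [MOD m] ∧ 1 < n'}.ncard := by
    rw [← Set.ncard_coe_finset]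
    refine Set.ncard_le_ncard_of_injOn (fun k => m * k + n) ?_ ?_ (le_finite x _)
    · intro k hk
      rw [Finset.mem_coe, Finset.mem_Ico] at hk
      refine ⟨?_, ?_, ?_⟩
      · have h2 : m * (k + 1) ≤ m * (x / m) := Nat.mul_le_mul_left m hk.2
        have h3 : m * (x / m) ≤ x := Nat.mul_div_le x m
        have h4 : m * (k + 1) = m * k + m := by ring
        change m * k + n ≤ x
        omega
      · change (m * k + n) % m = n % m
        rw [Nat.mul_add_mod]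
      · have h2 : 1 * 2 ≤ m * k := Nat.mul_le_mul hm hk.1
        change 1 < m * k + n
        omega
    · intro a _ b _ hab
      have h2 : m * a = m * b := by
        change m * a + n = m * b + n at hab
        omega
      exact Nat.eq_of_mul_eq_mul_left hm h2
  have h2 : (x : ℝ) / m < (x / m : ℕ) + 1 := by
    have hm' : (0 : ℝ) < m := by exact_mod_cast hm
    rw [div_lt_iff₀ hm']
    have h3 := Nat.lt_mul_div_succ x hm
    have h4 : (x : ℝ) < (m : ℝ) * ((x / m : ℕ) + 1) := by exact_mod_cast h3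
    linarith
  have h3 : ((x / m : ℕ) : ℝ) - 2 ≤ ((Finset.Ico 2 (x / m)).card : ℝ) := by
    rw [Nat.card_Ico]
    have h5 : x / m ≤ x / m - 2 + 2 := by omega
    have h4 : ((x / m : ℕ) : ℝ) ≤ ((x / m - 2 : ℕ) : ℝ) + 2 := by exact_mod_cast h5
    linarith
  have h4 : ((Finset.Ico 2 (x / m)).card : ℝ) ≤
      ({n' : ℕ | n' ≤ x ∧ n' ≡ n [MOD m] ∧ 1 < n'}.ncard : ℝ) := by exact_mod_cast h1
  linarith

theorem final_A (hTA : T_TA) : ∃ x₀ : ℕ, ∀ x : ℕ, x₀ ≤ x →
      ({n : ℕ | n ≤ x ∧ Odd n ∧ (reps n : ℝ) < Real.log n / 10}.ncard : ℝ) ≤ x / 10 ^ 100 := by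
  obtain ⟨x₀, h⟩ := hTA
  refine ⟨x₀, fun x hx => ?_⟩
  have h1 := h x hx (le_finite x fun n => Odd n ∧ (reps n : ℝ) < Real.log n / 10).toFinset
    (fun n hn => by
      rw [Set.Finite.mem_toFinset] at hn
      obtain ⟨h3, h4, h5⟩ := hn
      rw [reps_eq] at h5
      exact ⟨h3, h4, by linarith⟩)
  rwa [← Set.ncard_eq_toFinset_card _ (le_finite x _)] at h1

theorem final_B (h2 : T_SEM) (hTC : T_TC) (hTD : T_TD) :
    (∃ C : ℝ, ∀ x : ℕ, 3 ≤ x →
      ({n : ℕ | n ≤ x ∧ Exceptional n ∧ ¬ Covered n}.ncard : ℝ) ≤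
        C * x / Real.log (Real.log x)) ∧
    (∀ n : ℕ, Odd n → Covered n → ∃ m : ℕ, 0 < m ∧
      ∀ n' : ℕ, n' ≡ n [MOD m] → 1 < n' → Exceptional n' ∧ Covered n') ∧
    ∃ δ : ℝ,
      Tendsto (fun x : ℕ => ({n : ℕ | n ≤ x ∧ Exceptional n}.ncard : ℝ) / x) atTop (𝓝 δ) ∧
      (δ = 0 ↔ ∀ n : ℕ, Odd n → ¬ Covered n) := by
  have hC : ∃ C : ℝ, ∀ x : ℕ, 3 ≤ x →
      ({n : ℕ | n ≤ x ∧ Exceptional n ∧ ¬ Covered n}.ncard : ℝ) ≤
        C * x / Real.log (Real.log x) := by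
    obtain ⟨C, h⟩ := hTC
    refine ⟨C, fun x hx => ?_⟩
    have h1 := h x hx (le_finite x fun n => Exceptional n ∧ ¬ Covered n).toFinset
      (fun n hn => by
        rw [Set.Finite.mem_toFinset] at hn
        obtain ⟨h3, h4, h5⟩ := hn
        refine ⟨h3, (exc_iff n).1 h4, fun F hF hc => h5 ((cov_iff n).2 ⟨F, hF, hc⟩)⟩)
    rwa [← Set.ncard_eq_toFinset_card _ (le_finite x _)] at h1
  refine ⟨hC, fun n hn hc => progression h2 n hn hc, ?_⟩
  obtain ⟨δ, hδ⟩ := hTD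
  have hset : ∀ x : ℕ, {n : ℕ | n ≤ x ∧ EE n} = {n : ℕ | n ≤ x ∧ Exceptional n} := fun x => by
    ext n
    simp only [Set.mem_ofPred_eq, exc_iff]
  simp only [hset] at hδ
  have h0 : 0 ≤ δ := ge_of_tendsto' hδ fun x => by positivity
  refine ⟨δ, hδ, fun hz n hn hc => ?_, fun hno => ?_⟩
  · obtain ⟨m, hm, hp⟩ := progression h2 n hn hc
    have h3 : (1 : ℝ) / m ≤ δ := by
      have hlim : Tendsto (fun x : ℕ => (1 : ℝ) / m - 3 / (x : ℝ)) atTop (𝓝 ((1 : ℝ) / m - 0)) :=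
        tendsto_const_nhds.sub (tendsto_const_div_atTop_nhds_zero_nat 3)
      rw [sub_zero] at hlim
      refine le_of_tendsto_of_tendsto hlim hδ ?_
      filter_upwards [eventually_ge_atTop 1] with x hx
      have hx1 : (0 : ℝ) < x := by exact_mod_cast hx
      rw [le_div_iff₀ hx1, sub_mul, div_mul_cancel₀ _ hx1.ne']
      have h4 := class_count m (n % m) x hm (Nat.mod_lt _ hm)
      have h5 : {n' : ℕ | n' ≤ x ∧ n' ≡ n % m [MOD m] ∧ 1 < n'} ⊆
          {n : ℕ | n ≤ x ∧ Exceptional n} := by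
        rintro n' ⟨h6, h7, h8⟩
        exact ⟨h6, (hp n' (h7.trans (Nat.mod_modEq n m)) h8).1⟩
      have h6 : ({n' : ℕ | n' ≤ x ∧ n' ≡ n % m [MOD m] ∧ 1 < n'}.ncard : ℝ) ≤
          ({n : ℕ | n ≤ x ∧ Exceptional n}.ncard : ℝ) := by
        exact_mod_cast Set.ncard_le_ncard h5 (le_finite x _)
      have h7 : (1 : ℝ) / m * x = x / m := by ring
      linarith
    have h4 : (0 : ℝ) < 1 / m := by
      have : (0 : ℝ) < m := by exact_mod_cast hm
      exact div_pos one_pos this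
    linarith
  · obtain ⟨C, hCx⟩ := hC
    have h3 : ∀ x : ℕ, {n : ℕ | n ≤ x ∧ Exceptional n ∧ ¬ Covered n} =
        {n : ℕ | n ≤ x ∧ Exceptional n} := fun x => by
      ext n
      exact ⟨fun h => ⟨h.1, h.2.1⟩, fun h => ⟨h.1, h.2, hno n h.2.1⟩⟩
    simp only [h3] at hCx
    have hlim : Tendsto (fun x : ℕ => C / Real.log (Real.log x)) atTop (𝓝 0) := by
      refine Tendsto.div_atTop tendsto_const_nhds ?_
      exact Real.tendsto_log_atTop.comp
        (Real.tendsto_log_atTop.comp tendsto_natCast_atTop_atTop)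
    refine le_antisymm (le_of_tendsto_of_tendsto hδ hlim ?_) h0
    filter_upwards [eventually_ge_atTop 3] with x hx
    have hx1 : (0 : ℝ) < x := by
      have : 0 < x := by omega
      exact_mod_cast this
    rw [div_le_iff₀ hx1]
    have h4 := hCx x hx
    calc _ ≤ _ := h4
      _ = _ := by ring

end Pool.Agent.H99.SQ
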