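import Pool.Agent.H99.SQ.Defs

/-! Fast check of the Wieferich condition in the kernel (module KA): definitions and soundness. -/

set_option autoImplicit false

namespace Pool.Agent.H99.SQ.K

/-- `2 ^ e % m` by powering in base 32, with fuel `f` (for `e < 32 ^ f`) -/
def pw (m : ℕ) : ℕ → ℕ → ℕ
  | 0, _ => 1
  | f + 1, e => Nat.mod (Nat.mul (Nat.pow 2 (Nat.mod e 32)) (Nat.pow (pw m f (Nat.div e 32)) 32)) m

/-- `m` is not coprime to the product of the primes from 5 to 47, or
`2 ^ (m - 1) % m ^ 2` is not `1` -/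
def good (m : ℕ) : Bool :=
  match Nat.beq (Nat.gcd m 102481630431415235) 1 with
  | true => !(Nat.beq (pw (Nat.mul m m) 4 (m - 1)) 1)
  | false => true

/-- the numbers `m + 6 i` and `m + 6 i + 4`, `i < k`, are good -/
def loop : ℕ → ℕ → Bool
  | 0, _ => true
  | k + 1, m => and (and (good m) (good (m + 4))) (loop k (m + 6))

/-- the same for `500 k` instead of `k` -/
def loop2 : ℕ → ℕ → Bool
  | 0, _ => true
  | k + 1, m => and (loop 500 m) (loop2 k (m + 3000))

theorem pw_modEq (m : ℕ) : ∀ f e : ℕ, e < 32 ^ f → pw m f e ≡ 2 ^ e [MOD m]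
  | 0, e, h => by
    have : e = 0 := by simpa using h
    subst this
    exact Nat.ModEq.refl _
  | f + 1, e, h => by
    have h1 : e / 32 < 32 ^ f := by
      rw [Nat.div_lt_iff_lt_mul (by norm_num)]
      rwa [pow_succ] at h
    have h2 := pw_modEq m f (e / 32) h1
    have h3 : 2 ^ e = 2 ^ (e % 32) * (2 ^ (e / 32)) ^ 32 := by
      rw [← pow_mul, ← pow_add]
      congr 1
      omega
    rw [h3]
    change (2 ^ (e % 32) * (pw m f (e / 32)) ^ 32) % m ≡ _ [MOD m]
    exact (Nat.mod_modEq _ _).trans ((Nat.ModEq.refl _).mul (h2.pow 32))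

theorem good_sound (p : ℕ) (hp : p.Prime) (h47 : 47 < p) (hM : p ≤ 1000000)
    (hg : good p = true) : ¬ p ^ 2 ∣ 2 ^ (p - 1) - 1 := by
  intro hd
  have hc : Nat.gcd p 102481630431415235 = 1 := by
    rw [← Nat.coprime_iff_gcd_eq_one, Nat.Prime.coprime_iff_not_dvd hp]
    intro h
    have h5 : (102481630431415235 : ℕ) =
        5 * (7 * (11 * (13 * (17 * (19 * (23 * (29 * (31 * (37 * (41 * (43 * 47))))))))))) := by
      norm_num
    rw [h5] at h
    have key : ∀ a b : ℕ, a ≤ 47 → 0 < a → p ∣ a * b → p ∣ b := fun a b ha h0 hab => by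
      rcases (Nat.Prime.dvd_mul hp).1 hab with h | h
      · exact absurd (Nat.le_of_dvd h0 h) (by omega)
      · exact h
    have h1 := key 5 _ (by norm_num) (by norm_num) h
    have h1 := key 7 _ (by norm_num) (by norm_num) h1
    have h1 := key 11 _ (by norm_num) (by norm_num) h1
    have h1 := key 13 _ (by norm_num) (by norm_num) h1
    have h1 := key 17 _ (by norm_num) (by norm_num) h1
    have h1 := key 19 _ (by norm_num) (by norm_num) h1
    have h1 := key 23 _ (by norm_num) (by norm_num) h1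
    have h1 := key 29 _ (by norm_num) (by norm_num) h1
    have h1 := key 31 _ (by norm_num) (by norm_num) h1
    have h1 := key 37 _ (by norm_num) (by norm_num) h1
    have h1 := key 41 _ (by norm_num) (by norm_num) h1
    have h1 := key 43 _ (by norm_num) (by norm_num) h1
    exact absurd (Nat.le_of_dvd (by norm_num) h1) (by omega)
  have hpw : pw (Nat.mul p p) 4 (p - 1) = 1 := by
    have h1 := pw_modEq (p * p) 4 (p - 1) (by omega)
    have h2 : 2 ^ (p - 1) ≡ 1 [MOD p * p] := by
      rw [← pow_two]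
      exact ((Nat.modEq_iff_dvd' Nat.one_le_two_pow).2 hd).symm
    have h3 := h1.trans h2
    have h4 : pw (p * p) 4 (p - 1) < p * p := Nat.mod_lt _ (by nlinarith)
    have h5 : 1 < p * p := by nlinarith
    have h6 : pw (p * p) 4 (p - 1) % (p * p) = 1 % (p * p) := h3
    rw [Nat.mod_eq_of_lt h4, Nat.mod_eq_of_lt h5] at h6
    exact h6
  unfold good at hg
  rw [hc, hpw] at hg
  exact absurd hg (by decide)

theorem loop_sound : ∀ k m : ℕ, loop k m = true → ∀ i < k,
    good (m + 6 * i) = true ∧ good (m + 6 * i + 4) = true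
  | 0, _, _, i, hi => absurd hi (Nat.not_lt_zero i)
  | k + 1, m, h, i, hi => by
    unfold loop at h
    rw [Bool.and_eq_true, Bool.and_eq_true] at h
    rcases Nat.eq_zero_or_pos i with h0 | h0
    · subst h0
      exact h.1
    · have h1 := loop_sound k (m + 6) h.2 (i - 1) (by omega)
      have e1 : m + 6 + 6 * (i - 1) = m + 6 * i := by omega
      rwa [e1] at h1

theorem loop2_sound : ∀ k m : ℕ, loop2 k m = true → ∀ i < 500 * k,
    good (m + 6 * i) = true ∧ good (m + 6 * i + 4) = true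
  | 0, _, _, i, hi => absurd hi (Nat.not_lt_zero i)
  | k + 1, m, h, i, hi => by
    unfold loop2 at h
    rw [Bool.and_eq_true] at h
    rcases Nat.lt_or_ge i 500 with h0 | h0
    · exact loop_sound 500 m h.1 i h0
    · have h1 := loop2_sound k (m + 3000) h.2 (i - 500) (by omega)
      have e1 : m + 3000 + 6 * (i - 500) = m + 6 * i := by omega
      rwa [e1] at h1

/-- the primes in `[6 a + 1, 6 a + 3000 k)` are not Wieferich primes if the check succeeds -/
theorem range_sound (a k : ℕ) (h : loop2 k (6 * a + 1) = true) (p : ℕ) (hp : p.Prime)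
    (h47 : 47 < p) (hM : p ≤ 1000000) (h1 : 6 * a + 1 ≤ p) (h2 : p < 6 * a + 1 + 3000 * k) :
    ¬ p ^ 2 ∣ 2 ^ (p - 1) - 1 := by
  refine good_sound p hp h47 hM ?_
  have h3 : ¬ 2 ∣ p := fun hd => by
    have := (Nat.prime_dvd_prime_iff_eq Nat.prime_two hp).1 hd
    omega
  have h4 : ¬ 3 ∣ p := fun hd => by
    have := (Nat.prime_dvd_prime_iff_eq Nat.prime_three hp).1 hd
    omega
  have h5 : p % 6 = 1 ∨ p % 6 = 5 := by omega
  rcases h5 with h5 | h5
  · obtain ⟨i, hi⟩ : ∃ i, p = 6 * a + 1 + 6 * i := ⟨(p - (6 * a + 1)) / 6, by omega⟩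
    rw [hi]
    exact (loop2_sound k _ h i (by omega)).1
  · obtain ⟨i, hi⟩ : ∃ i, p = 6 * a + 1 + 6 * i + 4 := ⟨(p - (6 * a + 5)) / 6, by omega⟩
    rw [hi]
    exact (loop2_sound k _ h i (by omega)).2

end Pool.Agent.H99.SQ.K
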